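import Pool.Agent.TH415.AP.WS
import Mathlib.NumberTheory.Chebyshev

set_option autoImplicit false

/-! # Direct hits by the larger ones of the small primes -/

namespace Pool.Agent.K6.H27.PR

open Finset Filter Pool.Agent.H318R2.Cr TH415.AP

open scoped Classical

theorem card_Pz (n : ℕ) : (Pz n).card = Nat.primeCounting n := by
  rw [Nat.primeCounting, Nat.primeCounting', Nat.count_eq_card_filter_range]
  congr 1
  ext p
  rw [mem_Pz, mem_filter, mem_range]
  constructor
  · rintro ⟨h1, h2⟩; exact ⟨by omega, h1⟩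
  · rintro ⟨h1, h2⟩; exact ⟨h2, by omega⟩

/-- the number of the primes in `(L/1000, L/10]` -/
theorem many_primes : ∃ L₀ : ℝ, ∀ L : ℝ, L₀ ≤ L →
    1 / 100 * L / Real.log L ≤ ((Pz ⌊L / 10⌋₊ \ Pz ⌊L / 1000⌋₊).card : ℝ) := by
  have hl4 : Real.log 4 ≤ 3 / 2 := by
    have : Real.log 4 = 2 * Real.log 2 := by
      rw [show (4 : ℝ) = 2 ^ (2 : ℕ) by norm_num, Real.log_pow]; norm_num
    have := Real.log_two_lt_d9
    linarith
  have h1 := Chebyshev.eventually_primeCounting_le (show (0 : ℝ) < 1 / 2 by norm_num)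
  have t1 : Tendsto (fun L : ℝ => L / 1000) atTop atTop := tendsto_id.atTop_div_const (by norm_num)
  have h2 := t1.eventually h1
  have h3 : ∀ᶠ L : ℝ in atTop, Real.log L ≤ L / 1000 := by
    have e1 := Real.isLittleO_log_id_atTop.def (show (0 : ℝ) < 1 / 1000 by norm_num)
    filter_upwards [e1, eventually_ge_atTop (1 : ℝ)] with s h h'
    rw [Real.norm_eq_abs, Real.norm_eq_abs, id, abs_of_nonneg (Real.log_nonneg h'),
      abs_of_nonneg (by linarith)] at h
    linarith
  obtain ⟨L₀, hL₀⟩ := eventually_atTop.1 ((h2.and h3).and (eventually_ge_atTop (1000000 : ℝ)))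
  refine ⟨L₀, fun L hL => ?_⟩
  obtain ⟨⟨a1, a2⟩, a3⟩ := hL₀ L hL
  have hL0 : 0 < L := by linarith
  have hlog : 0 < Real.log L := Real.log_pos (by linarith)
  have h1000 : Real.log 1000 ≤ Real.log L / 2 := by
    have : Real.log ((1000 : ℝ) ^ 2) ≤ Real.log L := Real.log_le_log (by norm_num) (by linarith)
    rw [Real.log_pow] at this
    push_cast at this
    linarith
  have hlk : Real.log L / 2 ≤ Real.log (L / 1000) := by
    rw [Real.log_div hL0.ne' (by norm_num)]
    linarith
  -- upper bound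
  have hup : ((Pz ⌊L / 1000⌋₊).card : ℝ) ≤ 4 / 1000 * L / Real.log L := by
    rw [card_Pz]
    refine a1.trans ?_
    have e1 : (Real.log 4 + 1 / 2) * (L / 1000) ≤ 2 / 1000 * L := by nlinarith
    calc (Real.log 4 + 1 / 2) * (L / 1000) / Real.log (L / 1000) ≤
        (2 / 1000 * L) / (Real.log L / 2) := by
          apply div_le_div₀ (by positivity) e1 (by positivity) hlk
      _ = _ := by field_simp; norm_num
  -- lower bound
  have hlow : 3 / 100 * L / Real.log L ≤ ((Pz ⌊L / 10⌋₊).card : ℝ) := by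
    rw [card_Pz]
    have e1 := Chebyshev.pi_ge' (show (1 : ℝ) < L / 10 by linarith)
    refine le_trans ?_ e1
    have e2 : Real.log (L / 10) ≤ Real.log L := Real.log_le_log (by linarith) (by linarith)
    have e3 : 0 < Real.log (L / 10) := Real.log_pos (by linarith)
    have e4 : Real.log (L / 10 + 2) ≤ Real.log L := Real.log_le_log (by linarith) (by linarith)
    have e5 := Real.log_two_gt_d9
    have e6 : 3 / 100 * L ≤ (L / 10 - 1) * Real.log 2 - Real.log (L / 10 + 2) := by nlinarith
    exact div_le_div₀ (by linarith [show 0 ≤ 3 / 100 * L by positivity]) e6 e3 e2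
  have hsub : ((Pz ⌊L / 10⌋₊).card : ℝ) ≤ ((Pz ⌊L / 10⌋₊ \ Pz ⌊L / 1000⌋₊).card : ℝ) +
      ((Pz ⌊L / 1000⌋₊).card : ℝ) := by
    have h := card_le_card_sdiff_add_card (s := Pz ⌊L / 10⌋₊) (t := Pz ⌊L / 1000⌋₊)
    exact_mod_cast h
  have hfin : 1 / 100 * L / Real.log L = 3 / 100 * L / Real.log L - 2 / 100 * L / Real.log L := by
    ring
  have hfin2 : 4 / 1000 * L / Real.log L ≤ 2 / 100 * L / Real.log L := by
    apply div_le_div_of_nonneg_right _ hlog.le
    linarith
  linarith

/-- every element of `E` is hit by `R` of the primes of `W` -/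
theorem direct (W : Finset ℕ) (E : Finset ℤ) (R : ℕ) (h : R * E.card ≤ W.card) (b : ℕ → ℤ) :
    ∃ b' : ℕ → ℤ, (∀ p, p ∉ W → b' p = b p) ∧
      ∀ k ∈ E, R ≤ (W.filter (fun p : ℕ => (p : ℤ) ∣ k - b' p)).card := by
  have hc : Fintype.card (E ×ˢ range R : Finset (ℤ × ℕ)) ≤ Fintype.card W := by
    rw [Fintype.card_coe, Fintype.card_coe, card_product, card_range]
    linarith [mul_comm R E.card]
  obtain ⟨f⟩ := Function.Embedding.nonempty_of_card_le hc
  refine ⟨fun p => if h : ∃ x : (E ×ˢ range R : Finset (ℤ × ℕ)), (f x : ℕ) = p then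
    (h.choose : ℤ × ℕ).1 else b p, ?_, ?_⟩
  · intro p hp
    have hno : ¬ ∃ x : (E ×ˢ range R : Finset (ℤ × ℕ)), (f x : ℕ) = p := by
      rintro ⟨x, hx⟩
      exact hp (hx ▸ (f x).2)
    simp only [dif_neg hno]
  · intro k hk
    set g : ℕ → ℕ := fun a => if h : a < R then
      (f ⟨(k, a), mem_product.2 ⟨hk, mem_range.2 h⟩⟩ : ℕ) else 0 with hg
    have hinj : Set.InjOn g (range R : Finset ℕ) := by
      intro a ha a' ha' haa
      rw [mem_coe, mem_range] at ha ha'
      simp only [hg, dif_pos ha, dif_pos ha'] at haa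
      have := f.injective (Subtype.ext haa)
      simpa using this
    have hcard : ((range R).image g).card = R := by
      rw [card_image_of_injOn hinj, card_range]
    refine hcard.ge.trans ?_
    apply card_le_card
    intro p hp
    rw [mem_image] at hp
    obtain ⟨a, ha, rfl⟩ := hp
    rw [mem_range] at ha
    have hga : g a = (f ⟨(k, a), mem_product.2 ⟨hk, mem_range.2 ha⟩⟩ : ℕ) := by
      simp only [hg, dif_pos ha]
    rw [mem_filter, hga]
    refine ⟨(f _).2, ?_⟩
    have hex : ∃ x : (E ×ˢ range R : Finset (ℤ × ℕ)), (f x : ℕ) =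
        (f ⟨(k, a), mem_product.2 ⟨hk, mem_range.2 ha⟩⟩ : ℕ) := ⟨_, rfl⟩
    simp only [dif_pos hex]
    have h1 := hex.choose_spec
    have h2 := f.injective (Subtype.ext h1)
    rw [h2]
    simp

/-- a lower bound for the number of prime factors -/
theorem omega_ge (m : ℕ) (U : Finset ℕ) (hU : ∀ p ∈ U, p.Prime) (hd : ∀ p ∈ U, p ∣ m)
    (hlt : ∏ p ∈ U, p < m) : U.card + 1 ≤ m.primeFactorsList.length := by
  have h1 : ∏ p ∈ U, p ∣ m := by
    apply Finset.prod_primes_dvd
    · intro p hp; exact (hU p hp).prime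
    · exact hd
  obtain ⟨q, hq⟩ := h1
  have hm0 : m ≠ 0 := by omega
  have hP0 : ∏ p ∈ U, p ≠ 0 := prod_ne_zero_iff.2 fun p hp => (hU p hp).ne_zero
  have hq0 : q ≠ 0 := by rintro rfl; simp at hq; exact hm0 hq
  have hq1 : q ≠ 1 := by rintro rfl; rw [mul_one] at hq; omega
  have h2 : ∀ V : Finset ℕ, (∀ p ∈ V, p.Prime) →
      ArithmeticFunction.cardFactors (∏ p ∈ V, p) = V.card := by
    intro V
    induction V using Finset.induction_on with
    | empty => intro _; simp
    | insert a V ha ih =>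
      intro hV
      rw [prod_insert ha, ArithmeticFunction.cardFactors_mul (hV a (mem_insert_self _ _)).ne_zero
        (prod_ne_zero_iff.2 fun p hp => (hV p (mem_insert_of_mem hp)).ne_zero),
        ArithmeticFunction.cardFactors_apply_prime (hV a (mem_insert_self _ _)),
        ih (fun p hp => hV p (mem_insert_of_mem hp)), card_insert_of_notMem ha]
      ring
  have h4 : m.primeFactorsList.length = ArithmeticFunction.cardFactors m := by
    rw [ArithmeticFunction.cardFactors_apply]
  rw [h4, hq, ArithmeticFunction.cardFactors_mul hP0 hq0, h2 U hU]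
  have h5 : 1 ≤ ArithmeticFunction.cardFactors q := by
    rw [Nat.one_le_iff_ne_zero]
    intro h
    rw [ArithmeticFunction.cardFactors_eq_zero_iff_eq_zero_or_one] at h
    rcases h with h | h
    · exact hq0 h
    · exact hq1 h
  omega

end Pool.Agent.K6.H27.PR
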