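import Pool.Agent.K6.H27.PR.Win

set_option autoImplicit false
set_option maxHeartbeats 4000000

/-! # Numerical facts about the lengths -/

namespace Pool.Agent.K6.H27.PR

open Finset Filter Pool.Agent.H256R2.SC

/-- the density of the integers with at most `j` hits -/
noncomputable def BB (j : ℕ) (X : ℝ) : ℝ :=
  if j = 0 then Real.log (Real.log (Real.log X)) ^ 2 /
    (Real.log (Real.log X) ^ 2 * Real.log (Real.log (Real.log (Real.log X))))
  else Real.log (Real.log (Real.log X)) ^ (j - 1) / Real.log (Real.log X)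

theorem ev5 (K : ℝ) : ∃ X₀ : ℝ, ∀ X : ℝ, X₀ ≤ X → K ≤ Real.log (Real.log (Real.log X)) ∧
    K ≤ Real.log (Real.log (Real.log (Real.log X))) ∧ K ≤ Real.log (Real.log X) ∧
    K ≤ Real.log X ∧
    Real.log (Real.log (Real.log X)) ^ 2 ≤ Real.log (Real.log X) ^ (1 / 3 : ℝ) := by
  obtain ⟨X₁, h₁⟩ := LG.ev_log K
  have h2 : ∀ᶠ s : ℝ in atTop, Real.log s ^ 2 ≤ s ^ (1 / 3 : ℝ) := by
    have a1 := isLittleO_log_rpow_rpow_atTop (2 : ℝ) (show (0 : ℝ) < 1 / 3 by norm_num)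
    have a2 := a1.bound (show (0 : ℝ) < 1 by norm_num)
    filter_upwards [a2, eventually_ge_atTop (1 : ℝ)] with s hs hs1
    have hl : 0 ≤ Real.log s := Real.log_nonneg hs1
    have e1 : Real.log s ^ (2 : ℝ) = Real.log s ^ 2 := by
      rw [← Real.rpow_natCast]; norm_num
    rw [e1, Real.norm_of_nonneg (by positivity), Real.norm_of_nonneg (by positivity),
      one_mul] at hs
    exact hs
  have h4 := (Real.tendsto_log_atTop.comp Real.tendsto_log_atTop).eventually h2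
  obtain ⟨X₂, hX₂⟩ := eventually_atTop.1 h4
  refine ⟨max X₁ X₂, fun X hX => ?_⟩
  obtain ⟨-, m1, m2, m3, m4⟩ := h₁ X ((le_max_left _ _).trans hX)
  exact ⟨m3, m4, m2, m1, hX₂ X ((le_max_right _ _).trans hX)⟩

theorem numr (R : ℕ) (c : ℝ) (hc : 0 < c) (hc1 : c ≤ 1) : ∃ X₀ : ℝ, ∀ X : ℝ, X₀ ≤ X →
    1 ≤ Real.log X ∧ 1 ≤ Real.log (Real.log X) ∧
    ∀ r : ℕ, 1 ≤ r → r ≤ R → 0 ≤ HH r X ∧
      Real.log X ≤ c * HH r X * Real.log (Real.log (Real.log X)) ^ (R + 1) ∧
      (r ≤ 3 → Real.log X ≤ c * HH r X) ∧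
      c * HH r X ≤ Real.log X * Real.log (Real.log X) ^ 2 ∧
      HH r X * BB (r - 1) X ≤ Real.log X ∧
      (2 ≤ r → HH r X * BB (r - 2) X * Real.log (Real.log X) ^ (2 / 3 : ℝ) ≤ Real.log X) ∧
      (3 ≤ r → HH r X * BB (r - 3) X * Real.log (Real.log X) ≤ Real.log X) := by
  obtain ⟨X₀, h₀⟩ := ev5 (1 / c + 1)
  refine ⟨X₀, fun X hX => ?_⟩
  obtain ⟨m3, m4, m2, m1, m5⟩ := h₀ X hX
  set L := Real.log X with hL
  set u₂ := Real.log L with hu₂
  set u₃ := Real.log u₂ with hu₃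
  set u₄ := Real.log u₃ with hu₄
  have hc' : 0 < 1 / c := by positivity
  have k2 : 1 ≤ u₂ := by linarith
  have k3 : 1 ≤ u₃ := by linarith
  have k4 : 1 ≤ u₄ := by linarith
  have k1 : 1 ≤ L := by linarith
  have p1 : 0 < L := by linarith
  have p2 : 0 < u₂ := by linarith
  have p3 : 0 < u₃ := by linarith
  have p4 : 0 < u₄ := by linarith
  set q := u₂ ^ (1 / 3 : ℝ) with hq
  have hq0 : 0 < q := by positivity
  have hq1 : 1 ≤ q := by
    have := Real.one_le_rpow k2 (show (0 : ℝ) ≤ 1 / 3 by norm_num)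
    exact this
  have hq3 : q ^ 3 = u₂ := by
    rw [hq, ← Real.rpow_natCast, ← Real.rpow_mul p2.le]; norm_num
  have hq2 : u₂ ^ (2 / 3 : ℝ) = q ^ 2 := by
    rw [hq, ← Real.rpow_natCast, ← Real.rpow_mul p2.le]; norm_num
  have hc3 : 1 ≤ c * u₃ := by
    have h1 : 1 / c ≤ u₃ := by linarith
    rw [div_le_iff₀ hc] at h1
    linarith
  have hu3q : u₃ ≤ q := by
    have : u₃ ≤ u₃ ^ 2 := le_self_pow₀ k3 (by norm_num)
    linarith
  have hcq : 1 ≤ c * q := by
    have : c * u₃ ≤ c * q := by gcongr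
    linarith
  have h44 : u₄ ≤ u₃ := by
    have := Real.log_le_sub_one_of_pos p3
    linarith
  have hqu : q ≤ u₂ := by
    rw [← hq3]
    exact le_self_pow₀ hq1 (by norm_num)
  have hB0 : BB 0 X = u₃ ^ 2 / (u₂ ^ 2 * u₄) := by
    unfold BB
    rw [if_pos rfl]
  have hBs : ∀ j : ℕ, BB (j + 1) X = u₃ ^ j / u₂ := by
    intro j
    unfold BB
    rw [if_neg (by omega), Nat.add_sub_cancel]
  refine ⟨k1, k2, fun r hr1 hrR => ?_⟩
  have hpow : 1 ≤ u₃ ^ (R + 1) := one_le_pow₀ k3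
  rcases (show r = 1 ∨ r = 2 ∨ r = 3 ∨ 4 ≤ r by omega) with h | h | h | h
  · -- r = 1
    subst h
    have hH : HH 1 X = L * u₂ ^ 2 * u₄ / u₃ ^ 2 := by
      unfold HH
      rw [if_pos le_rfl]
      rfl
    have e1 : L ≤ c * HH 1 X := by
      rw [hH, ← mul_div_assoc, le_div_iff₀ (by positivity)]
      calc L * u₃ ^ 2 ≤ L * q := by gcongr
        _ ≤ L * u₂ := by gcongr
        _ = L * u₂ * 1 := (mul_one _).symm
        _ ≤ L * u₂ * (c * q) := by gcongr
        _ ≤ L * u₂ * (c * u₂) := by gcongr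
        _ = L * u₂ * (c * u₂) * 1 := (mul_one _).symm
        _ ≤ L * u₂ * (c * u₂) * u₄ := by gcongr
        _ = c * (L * u₂ ^ 2 * u₄) := by ring
    refine ⟨by rw [hH]; positivity, ?_, fun _ => e1, ?_, ?_, fun h => absurd h (by norm_num),
      fun h => absurd h (by norm_num)⟩
    · calc L ≤ c * HH 1 X := e1
        _ = c * HH 1 X * 1 := (mul_one _).symm
        _ ≤ _ := by
          have : 0 ≤ c * HH 1 X := by linarith
          gcongr
    · rw [hH]
      have h1 : L * u₂ ^ 2 * u₄ / u₃ ^ 2 ≤ L * u₂ ^ 2 := by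
        rw [div_le_iff₀ (by positivity)]
        have : u₄ ≤ u₃ ^ 2 := h44.trans (le_self_pow₀ k3 (by norm_num))
        gcongr
      calc c * (L * u₂ ^ 2 * u₄ / u₃ ^ 2) ≤ 1 * (L * u₂ ^ 2 * u₄ / u₃ ^ 2) := by gcongr
        _ ≤ _ := by rw [one_mul]; exact h1
    · rw [hH, show (1 : ℕ) - 1 = 0 from rfl, hB0]
      apply le_of_eq
      field_simp
  · -- r = 2
    subst h
    have hH : HH 2 X = L * u₂ := by
      unfold HH
      rw [if_neg (by norm_num), if_pos rfl]
    have e1 : L ≤ c * HH 2 X := by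
      rw [hH]
      calc L = L * 1 := (mul_one _).symm
        _ ≤ L * (c * q) := by gcongr
        _ ≤ L * (c * u₂) := by gcongr
        _ = _ := by ring
    refine ⟨by rw [hH]; positivity, ?_, fun _ => e1, ?_, ?_, fun _ => ?_,
      fun h => absurd h (by norm_num)⟩
    · calc L ≤ c * HH 2 X := e1
        _ = c * HH 2 X * 1 := (mul_one _).symm
        _ ≤ _ := by
          have : 0 ≤ c * HH 2 X := by linarith
          gcongr
    · rw [hH]
      have h1 : u₂ ≤ u₂ ^ 2 := le_self_pow₀ k2 (by norm_num)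
      calc c * (L * u₂) ≤ 1 * (L * u₂) := by gcongr
        _ = L * u₂ := one_mul _
        _ ≤ _ := by gcongr
    · rw [hH, show (2 : ℕ) - 1 = 0 + 1 from rfl, hBs]
      apply le_of_eq
      field_simp
    · rw [hH, show (2 : ℕ) - 2 = 0 from rfl, hB0, hq2]
      have e : L * u₂ * (u₃ ^ 2 / (u₂ ^ 2 * u₄)) * q ^ 2 = L * (u₃ ^ 2 * q ^ 2) / (u₂ * u₄) := by
        field_simp
      rw [e, div_le_iff₀ (by positivity)]
      calc L * (u₃ ^ 2 * q ^ 2) ≤ L * (q * q ^ 2) := by gcongr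
        _ = L * (q ^ 3 * 1) := by ring
        _ ≤ L * (q ^ 3 * u₄) := by gcongr
        _ = _ := by rw [hq3]
  · -- r = 3
    subst h
    have hH : HH 3 X = L * q := by
      unfold HH
      rw [if_neg (by norm_num), if_neg (by norm_num), if_pos rfl]
    have e1 : L ≤ c * HH 3 X := by
      rw [hH]
      calc L = L * 1 := (mul_one _).symm
        _ ≤ L * (c * q) := by gcongr
        _ = _ := by ring
    refine ⟨by rw [hH]; positivity, ?_, fun _ => e1, ?_, ?_, fun _ => ?_, fun _ => ?_⟩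
    · calc L ≤ c * HH 3 X := e1
        _ = c * HH 3 X * 1 := (mul_one _).symm
        _ ≤ _ := by
          have : 0 ≤ c * HH 3 X := by linarith
          gcongr
    · rw [hH]
      have h1 : u₂ ≤ u₂ ^ 2 := le_self_pow₀ k2 (by norm_num)
      calc c * (L * q) ≤ 1 * (L * q) := by gcongr
        _ = L * q := one_mul _
        _ ≤ L * u₂ := by gcongr
        _ ≤ _ := by gcongr
    · rw [hH, show (3 : ℕ) - 1 = 1 + 1 from rfl, hBs, pow_one]
      have e : L * q * (u₃ / u₂) = L * (q * u₃) / u₂ := by ring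
      rw [e, div_le_iff₀ p2]
      calc L * (q * u₃) ≤ L * (q * q) := by gcongr
        _ = L * (q ^ 2 * 1) := by ring
        _ ≤ L * (q ^ 2 * q) := by gcongr
        _ = L * u₂ := by rw [← hq3]; ring
    · rw [hH, show (3 : ℕ) - 2 = 0 + 1 from rfl, hBs, pow_zero, hq2]
      apply le_of_eq
      have e : L * q * (1 / u₂) * q ^ 2 = L * q ^ 3 / u₂ := by ring
      rw [e, hq3]
      field_simp
    · rw [hH, show (3 : ℕ) - 3 = 0 from rfl, hB0]
      have e : L * q * (u₃ ^ 2 / (u₂ ^ 2 * u₄)) * u₂ = L * (q * u₃ ^ 2) / (u₂ * u₄) := by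
        field_simp
      rw [e, div_le_iff₀ (by positivity)]
      calc L * (q * u₃ ^ 2) ≤ L * (q * q) := by gcongr
        _ = L * (q ^ 2 * 1 * 1) := by ring
        _ ≤ L * (q ^ 2 * q * u₄) := by gcongr
        _ = L * (u₂ * u₄) := by rw [← hq3]; ring
  · -- 4 ≤ r
    obtain ⟨s, rfl⟩ : ∃ s, r = s + 4 := ⟨r - 4, by omega⟩
    have hH : HH (s + 4) X = L / u₃ ^ s := by
      unfold HH
      rw [if_neg (by omega), if_neg (by omega), if_neg (by omega), Nat.add_sub_cancel]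
    have hps : 0 < u₃ ^ s := by positivity
    refine ⟨by rw [hH]; positivity, ?_, fun h => absurd h (by omega), ?_, ?_, fun _ => ?_,
      fun _ => ?_⟩
    · rw [hH]
      obtain ⟨d, hd⟩ : ∃ d, R + 1 = s + 1 + d := ⟨R + 1 - (s + 1), by omega⟩
      have e : c * (L / u₃ ^ s) * u₃ ^ (R + 1) = L * (c * u₃) * u₃ ^ d := by
        rw [hd, pow_add, pow_add]
        field_simp
      rw [e]
      calc L = L * 1 * 1 := by ring
        _ ≤ L * (c * u₃) * u₃ ^ d := by
          have : 1 ≤ u₃ ^ d := one_le_pow₀ k3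
          gcongr
    · rw [hH]
      have h1 : L / u₃ ^ s ≤ L := div_le_self p1.le (one_le_pow₀ k3)
      have h2 : 1 ≤ u₂ ^ 2 := one_le_pow₀ k2
      calc c * (L / u₃ ^ s) ≤ 1 * L := by gcongr
        _ = L * 1 := by ring
        _ ≤ _ := by gcongr
    · rw [hH, show s + 4 - 1 = (s + 2) + 1 by omega, hBs]
      have e : L / u₃ ^ s * (u₃ ^ (s + 2) / u₂) = L * u₃ ^ 2 / u₂ := by
        rw [pow_add]; field_simp
      rw [e, div_le_iff₀ p2]
      calc L * u₃ ^ 2 ≤ L * q := by gcongr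
        _ ≤ _ := by gcongr
    · rw [hH, show s + 4 - 2 = (s + 1) + 1 by omega, hBs, hq2]
      have e : L / u₃ ^ s * (u₃ ^ (s + 1) / u₂) * q ^ 2 = L * (u₃ * q ^ 2) / u₂ := by
        rw [pow_add]; field_simp
      rw [e, div_le_iff₀ p2]
      calc L * (u₃ * q ^ 2) ≤ L * (q * q ^ 2) := by gcongr
        _ = L * u₂ := by rw [← hq3]; ring
    · rw [hH, show s + 4 - 3 = s + 1 by omega, hBs]
      apply le_of_eq
      field_simp

end Pool.Agent.K6.H27.PR
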