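import Pool.Agent.K6.H27.PR.Pre
import Pool.Agent.K6.H27.PR.Direct
import Pool.Agent.K6.H27.PR.Num

set_option autoImplicit false
set_option maxHeartbeats 4000000

/-! # Nested intervals without integers with few prime factors -/

namespace Pool.Agent.K6.H27.PR

open Finset Filter Pool.Agent.H256R2.SC Pool.Agent.H318R2.Cr TH415.AP

open scoped Classical

theorem ev_base (R : ℕ) : ∃ X₀ : ℝ, ∀ X : ℝ, X₀ ≤ X → 1 < X ∧ 10000 ≤ Real.log X ∧
    (Real.log X) ^ 2 ≤ X / 4 ∧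
    (max (Real.log X / 10) (Real.exp ((Real.log X) ^ (1 / 20 : ℝ)))) ^ R < X / 2 ∧
    Real.log (Real.log X) ≤ 2 * Real.log (Real.log X / 100) ∧ 1 ≤ Real.log (Real.log X) := by
  have t1 := Real.tendsto_log_atTop
  have t2 := t1.comp t1
  have h1 : ∀ᶠ s : ℝ in atTop, R * s ^ (1 / 20 : ℝ) ≤ s / 4 := by
    have a1 : ∀ᶠ s : ℝ in atTop, 4 * (R + 1) ≤ s ^ (19 / 20 : ℝ) :=
      (tendsto_rpow_atTop (by norm_num)).eventually_ge_atTop _
    filter_upwards [a1, eventually_ge_atTop (1 : ℝ)] with s hs hs1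
    have hs0 : 0 < s := by linarith
    have e : s ^ (19 / 20 : ℝ) * s ^ (1 / 20 : ℝ) = s := by
      rw [← Real.rpow_add hs0]; norm_num
    have h0 : 0 ≤ s ^ (1 / 20 : ℝ) := by positivity
    have h1 := mul_le_mul_of_nonneg_right hs h0
    rw [e] at h1
    have h2 : (4 * ((R : ℝ) + 1)) * s ^ (1 / 20 : ℝ) = 4 * (R * s ^ (1 / 20 : ℝ)) +
      4 * s ^ (1 / 20 : ℝ) := by ring
    linarith
  have h2 : ∀ᶠ s : ℝ in atTop, R * Real.log s ≤ s / 4 := by
    have a2 := Real.isLittleO_log_id_atTop.bound (show (0 : ℝ) < 1 / (4 * (R + 1)) by positivity)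
    filter_upwards [a2, eventually_ge_atTop (1 : ℝ)] with s hs hs1
    have hl := Real.log_nonneg hs1
    rw [id, Real.norm_of_nonneg hl, Real.norm_of_nonneg (by linarith),
      one_div_mul_eq_div, le_div_iff₀ (by positivity)] at hs
    linarith
  have h3 : ∀ᶠ X : ℝ in atTop, (Real.log X) ^ 2 ≤ X / 4 := by
    have e1 := (Real.isLittleO_pow_log_id_atTop (n := 2)).def (show (0 : ℝ) < 1 / 4 by norm_num)
    filter_upwards [e1, eventually_ge_atTop (1 : ℝ)] with t ht h1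
    simp only [id, Real.norm_eq_abs, abs_of_nonneg (sq_nonneg (Real.log t)),
      abs_of_nonneg (by linarith : (0 : ℝ) ≤ t)] at ht
    linarith
  obtain ⟨X₀, h₀⟩ := eventually_atTop.1 (((((t1.eventually h1).and (t1.eventually h2)).and h3).and
    (t1.eventually_ge_atTop 10000)).and (eventually_gt_atTop (1 : ℝ)))
  refine ⟨X₀, fun X hX => ?_⟩
  obtain ⟨⟨⟨⟨a1, a2⟩, a3⟩, a4⟩, a5⟩ := h₀ X hX
  have hX0 : 0 < X := by linarith
  set L := Real.log X with hL
  have hL0 : 0 < L := by linarith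
  refine ⟨a5, a4, a3, ?_, ?_, ?_⟩
  · have hexp : X = Real.exp (L / 4) ^ 4 := by
      rw [← Real.exp_nat_mul, hL]
      push_cast
      rw [show (4 : ℝ) * (Real.log X / 4) = Real.log X by ring, Real.exp_log hX0]
    have hbig : 2 < Real.exp (L / 4) := by
      have := Real.add_one_le_exp (L / 4)
      linarith
    have hone : 1 ≤ Real.exp (L / 4) := by linarith
    have hZ : (max (L / 10) (Real.exp (L ^ (1 / 20 : ℝ)))) ^ R ≤ Real.exp (L / 4) := by
      rcases le_total (L / 10) (Real.exp (L ^ (1 / 20 : ℝ))) with h | h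
      · rw [max_eq_right h, ← Real.exp_nat_mul]
        exact Real.exp_le_exp.2 a1
      · rw [max_eq_left h]
        calc (L / 10) ^ R ≤ L ^ R := pow_le_pow_left₀ (by positivity) (by linarith) R
          _ = Real.exp (R * Real.log L) := by
            rw [Real.exp_nat_mul, Real.exp_log hL0]
          _ ≤ _ := Real.exp_le_exp.2 a2
    refine lt_of_le_of_lt hZ ?_
    rw [hexp, lt_div_iff₀ (by norm_num)]
    have e := Real.exp_pos (L / 4)
    calc Real.exp (L / 4) * 2 < Real.exp (L / 4) * Real.exp (L / 4) := by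
          apply mul_lt_mul_of_pos_left hbig e
      _ = Real.exp (L / 4) ^ 2 := by ring
      _ ≤ Real.exp (L / 4) ^ 4 := pow_le_pow_right₀ hone (by norm_num)
  · rw [Real.log_div hL0.ne' (by norm_num)]
    have : Real.log ((100 : ℝ) ^ 2) ≤ Real.log L := Real.log_le_log (by norm_num) (by linarith)
    rw [Real.log_pow] at this
    push_cast at this
    linarith
  · rw [← Real.log_exp 1]
    apply Real.log_le_log (Real.exp_pos _)
    have := Real.exp_one_lt_d9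
    linarith

theorem sum_card_le {s : Finset ℕ} (f : ℕ → Finset ℤ) (B : ℝ) (R : ℕ) (hs : s.card ≤ R)
    (hB : 0 ≤ B) (h : ∀ r ∈ s, ((f r).card : ℝ) ≤ B) : ((s.biUnion f).card : ℝ) ≤ R * B := by
  have h1 : ((s.biUnion f).card : ℝ) ≤ ∑ r ∈ s, ((f r).card : ℝ) := by
    exact_mod_cast card_biUnion_le
  refine h1.trans ((sum_le_sum h).trans ?_)
  rw [sum_const, nsmul_eq_mul]
  have : (s.card : ℝ) ≤ R := by exact_mod_cast hs
  gcongr

theorem base (R : ℕ) : ∃ c : ℝ, 0 < c ∧ ∃ X₀ : ℝ, ∀ X : ℝ, X₀ ≤ X → ∀ Y : ℝ, X ≤ Y →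
    ∃ n : ℕ, Y < n ∧ (n : ℝ) ≤ Y + X ∧ ∀ r : ℕ, 1 ≤ r → r ≤ R → ∀ m : ℕ,
      |(m : ℝ) - n| ≤ c * HH r (X ^ (1 / 100 : ℝ)) → r + 1 ≤ m.primeFactorsList.length := by
  obtain ⟨c₀, hc₀, X₁, hrun⟩ := Pool.Agent.TH877.M2.run_dbl
  obtain ⟨C, hC, X₂, hpre⟩ := pre (3 * R) (R + 1)
  set D₀ : ℝ := (R + 1) * (C + 1) with hD₀
  have hR0 : (0 : ℝ) ≤ R := Nat.cast_nonneg R
  have hD₀pos : 0 < D₀ := by positivity
  set c : ℝ := min 1 (min (c₀ / (2 * D₀)) (1 / (2 * (R + 1) * D₀))) with hc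
  have hc0 : 0 < c := by positivity
  have hc1 : c ≤ 1 := min_le_left _ _
  have hcA : c ≤ c₀ / (2 * D₀) := (min_le_right _ _).trans (min_le_left _ _)
  have hcB : c ≤ 1 / (2 * (R + 1) * D₀) := (min_le_right _ _).trans (min_le_right _ _)
  have hRC : (R : ℝ) * C ≤ D₀ := by
    rw [hD₀]
    nlinarith
  have hRCc : (R : ℝ) * (C * c) ≤ c₀ / 2 := by
    calc (R : ℝ) * (C * c) = (R * C) * c := by ring
      _ ≤ D₀ * (c₀ / (2 * D₀)) := by gcongr
      _ = c₀ / 2 := by field_simp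
  have hRRCc : 2 * ((R : ℝ) * (R * (C * c))) ≤ 1 := by
    calc 2 * ((R : ℝ) * (R * (C * c))) = 2 * R * (R * C) * c := by ring
      _ ≤ 2 * (R + 1) * D₀ * (1 / (2 * (R + 1) * D₀)) := by gcongr; linarith
      _ = 1 := by field_simp
  obtain ⟨X₃, hnum⟩ := numr R c hc0 hc1
  obtain ⟨L₀, hmany⟩ := many_primes
  obtain ⟨X₄, hev⟩ := ev_base R
  have t1 : ∀ᶠ X : ℝ in atTop, max X₂ X₃ ≤ X ^ (1 / 100 : ℝ) :=
    (tendsto_rpow_atTop (by norm_num)).eventually_ge_atTop _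
  have t2 : ∀ᶠ X : ℝ in atTop, L₀ ≤ Real.log X := Real.tendsto_log_atTop.eventually_ge_atTop _
  obtain ⟨X₅, hX₅⟩ := eventually_atTop.1 (t1.and t2)
  refine ⟨c, hc0, max X₁ (max X₄ X₅), fun X hX Y hXY => ?_⟩
  have hX1 : X₁ ≤ X := (le_max_left _ _).trans hX
  obtain ⟨q1, q2, q3, q4, q5, q6⟩ := hev X (((le_max_left _ _).trans (le_max_right _ _)).trans hX)
  obtain ⟨r1, r2⟩ := hX₅ X (((le_max_right _ _).trans (le_max_right _ _)).trans hX)
  have hX0 : 0 < X := by linarith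
  set X' := X ^ (1 / 100 : ℝ) with hX'
  have hlogX' : Real.log X' = Real.log X / 100 := by
    rw [hX', Real.log_rpow hX0]; ring
  set L := Real.log X with hL
  have hL0 : 0 < L := by linarith
  obtain ⟨s1, s2, hwin⟩ := hnum X' ((le_max_right _ _).trans r1)
  rw [hlogX'] at s1 s2
  set u := Real.log (L / 100) with hu
  have hu0 : 0 < u := by linarith
  -- the classes modulo the small primes
  obtain ⟨b, hb⟩ := hpre X' ((le_max_left _ _).trans r1) (fun i => c * HH (i / 3 + 1) X')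
    (fun i => i / 3 - i % 3) (fun i hi => by omega)
    (fun i hi => (hwin (i / 3 + 1) (by omega) (by omega)).2.1)
    (fun i hi h0 => (hwin (i / 3 + 1) (by omega) (by omega)).2.2.1 (by omega))
    (fun i hi => (hwin (i / 3 + 1) (by omega) (by omega)).2.2.2.1)
  set SS : ℕ → ℕ → Finset ℤ := fun r e => (Icc (-⌊c * HH r X'⌋) ⌊c * HH r X'⌋).filter
    (fun k : ℤ => hits (Pz ⌊L / 1000⌋₊) b k ≤ r - 1 - e) with hSS
  have hcnt : ∀ r e : ℕ, 1 ≤ r → r ≤ R → e < 3 →
      ((SS r e).card : ℝ) ≤ C * c * (HH r X' * BB (r - 1 - e) X') := by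
    intro r e hr1 hrR he
    have h1 := hb (3 * (r - 1) + e) (by omega)
    have h2 : (3 * (r - 1) + e) / 3 = r - 1 := by omega
    have h3 : (3 * (r - 1) + e) % 3 = e := by omega
    simp only [h2, h3] at h1
    have h4 : r - 1 + 1 = r := by omega
    rw [h4] at h1
    have h5 : cnt X' b (c * HH r X') (r - 1 - e) = ((SS r e).card : ℝ) := by
      unfold cnt
      rw [hSS, hlogX', show L / 100 / 10 = L / 1000 by ring]
    rw [h5] at h1
    calc ((SS r e).card : ℝ) ≤ _ := h1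
      _ = _ := by
        unfold BB
        ring
  -- the three bounds
  have hCc : 0 < C * c := by positivity
  have bd0 : ∀ r : ℕ, 1 ≤ r → r ≤ R → ((SS r 0).card : ℝ) ≤ C * c * (L / 100) := by
    intro r hr1 hrR
    refine (hcnt r 0 hr1 hrR (by norm_num)).trans ?_
    have h1 := (hwin r hr1 hrR).2.2.2.2.1
    rw [hlogX'] at h1
    rw [Nat.sub_zero]
    gcongr
  have bd1 : ∀ r : ℕ, 2 ≤ r → r ≤ R → ((SS r 1).card : ℝ) * u ^ (2 / 3 : ℝ) ≤ C * c * (L / 100) := by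
    intro r hr2 hrR
    have h1 := (hwin r (by omega) hrR).2.2.2.2.2.1 hr2
    rw [hlogX'] at h1
    have h2 := hcnt r 1 (by omega) hrR (by norm_num)
    rw [show r - 1 - 1 = r - 2 by omega] at h2
    have h3 : 0 ≤ u ^ (2 / 3 : ℝ) := by positivity
    calc ((SS r 1).card : ℝ) * u ^ (2 / 3 : ℝ) ≤ C * c * (HH r X' * BB (r - 2) X') * u ^ (2 / 3 : ℝ) :=
          mul_le_mul_of_nonneg_right h2 h3
      _ = C * c * (HH r X' * BB (r - 2) X' * u ^ (2 / 3 : ℝ)) := by ring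
      _ ≤ _ := by gcongr
  have bd2 : ∀ r : ℕ, 3 ≤ r → r ≤ R → ((SS r 2).card : ℝ) * u ≤ C * c * (L / 100) := by
    intro r hr3 hrR
    have h1 := (hwin r (by omega) hrR).2.2.2.2.2.2 hr3
    rw [hlogX'] at h1
    have h2 := hcnt r 2 (by omega) hrR (by norm_num)
    rw [show r - 1 - 2 = r - 3 by omega] at h2
    calc ((SS r 2).card : ℝ) * u ≤ C * c * (HH r X' * BB (r - 3) X') * u :=
          mul_le_mul_of_nonneg_right h2 hu0.le
      _ = C * c * (HH r X' * BB (r - 3) X' * u) := by ring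
      _ ≤ _ := by gcongr
  set S := (Icc 1 R).biUnion (fun r => SS r 0) with hS
  set D := (Icc 2 R).biUnion (fun r => SS r 1) with hD
  set E := (Icc 3 R).biUnion (fun r => SS r 2) with hE
  have hu23 : 0 < u ^ (2 / 3 : ℝ) := by positivity
  have hCL : 0 ≤ C * c * (L / 100) := by positivity
  have cS : (S.card : ℝ) ≤ R * (C * c * (L / 100)) :=
    sum_card_le _ _ R (by rw [Nat.card_Icc]; omega) hCL
      (fun r hr => bd0 r (mem_Icc.1 hr).1 (mem_Icc.1 hr).2)
  have cD : (D.card : ℝ) ≤ R * (C * c * (L / 100) / u ^ (2 / 3 : ℝ)) :=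
    sum_card_le _ _ R (by rw [Nat.card_Icc]; omega) (by positivity)
      (fun r hr => by
        rw [le_div_iff₀ hu23]
        exact bd1 r (mem_Icc.1 hr).1 (mem_Icc.1 hr).2)
  have cE : (E.card : ℝ) ≤ R * (C * c * (L / 100) / u) :=
    sum_card_le _ _ R (by rw [Nat.card_Icc]; omega) (by positivity)
      (fun r hr => by
        rw [le_div_iff₀ hu0]
        exact bd2 r (mem_Icc.1 hr).1 (mem_Icc.1 hr).2)
  -- the direct hits
  set W := Pz ⌊L / 10⌋₊ \ Pz ⌊L / 1000⌋₊ with hW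
  have hlogL : 0 < Real.log L := by linarith
  have hWE : R * E.card ≤ W.card := by
    have h1 := hmany L r2
    have h2 : (R : ℝ) * E.card ≤ 1 / 100 * L / Real.log L := by
      calc (R : ℝ) * E.card ≤ R * (R * (C * c * (L / 100) / u)) := by gcongr
        _ = (R * (R * (C * c))) * (L / 100) / u := by ring
        _ ≤ (1 / 2) * (L / 100) / u := by
            gcongr
            linarith
        _ ≤ 1 / 100 * L / Real.log L := by
            rw [div_le_div_iff₀ hu0 hlogL]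
            calc 1 / 2 * (L / 100) * Real.log L ≤ 1 / 2 * (L / 100) * (2 * u) := by gcongr
              _ = _ := by ring
    have h3 : (R : ℝ) * E.card ≤ W.card := h2.trans h1
    exact_mod_cast h3
  obtain ⟨b', hb1, hb2⟩ := direct W E R hWE b
  have hIcc : ∀ (x : ℝ) (k : ℤ), k ∈ Finset.Icc (-⌊x⌋) ⌊x⌋ ↔ |(k : ℝ)| ≤ x := by
    intro r k
    rw [Finset.mem_Icc, abs_le]
    constructor
    · rintro ⟨h1, h2⟩
      have h3 := Int.floor_le r
      have h4 : (-(⌊r⌋ : ℝ)) ≤ k := by exact_mod_cast h1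
      have h5 : (k : ℝ) ≤ ⌊r⌋ := by exact_mod_cast h2
      constructor <;> linarith
    · rintro ⟨h1, h2⟩
      refine ⟨?_, Int.le_floor.2 h2⟩
      have : -k ≤ ⌊r⌋ := Int.le_floor.2 (by push_cast; linarith)
      linarith
  have hwinL : ∀ r : ℕ, 1 ≤ r → r ≤ R → c * HH r X' ≤ L ^ 2 := by
    intro r h1 h2
    have h3 := (hwin r h1 h2).2.2.2.1
    rw [hlogX'] at h3
    refine h3.trans ?_
    have h4 : u ^ 2 ≤ 4 * (L / 100) := LG.log_sq_le s1
    calc L / 100 * Real.log (L / 100) ^ 2 ≤ L / 100 * (4 * (L / 100)) := by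
          apply mul_le_mul_of_nonneg_left h4 (by positivity)
      _ ≤ L ^ 2 := by nlinarith [sq_nonneg L]
  have hDS : D ⊆ S := by
    intro k hk
    rw [hD, mem_biUnion] at hk
    obtain ⟨r, hr, hk⟩ := hk
    rw [mem_Icc] at hr
    rw [hS, mem_biUnion]
    refine ⟨r, mem_Icc.2 ⟨by omega, hr.2⟩, ?_⟩
    rw [hSS, mem_filter] at hk ⊢
    exact ⟨hk.1, by omega⟩
  obtain ⟨n, n1, n2, n3, n4, n5⟩ := hrun X hX1 Y b' S D hDS
    (by
      intro k hk
      rw [hS, mem_biUnion] at hk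
      obtain ⟨r, hr, hk⟩ := hk
      rw [mem_Icc] at hr
      rw [hSS, mem_filter, hIcc] at hk
      exact hk.1.trans (hwinL r hr.1 hr.2))
    (by
      refine cS.trans ?_
      calc (R : ℝ) * (C * c * (L / 100)) = (R * (C * c)) * (L / 100) := by ring
        _ ≤ (c₀ / 2) * (L / 100) := by gcongr
        _ ≤ c₀ * L := by nlinarith)
    (by
      have h1 : Real.log L ^ (2 / 3 : ℝ) ≤ 2 * u ^ (2 / 3 : ℝ) := by
        calc Real.log L ^ (2 / 3 : ℝ) ≤ (2 * u) ^ (2 / 3 : ℝ) :=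
              Real.rpow_le_rpow hlogL.le q5 (by norm_num)
          _ = 2 ^ (2 / 3 : ℝ) * u ^ (2 / 3 : ℝ) := Real.mul_rpow (by norm_num) hu0.le
          _ ≤ 2 ^ (1 : ℝ) * u ^ (2 / 3 : ℝ) := by
              gcongr
              · norm_num
              · norm_num
          _ = _ := by rw [Real.rpow_one]
      calc (D.card : ℝ) * Real.log L ^ (2 / 3 : ℝ) ≤
          (R * (C * c * (L / 100) / u ^ (2 / 3 : ℝ))) * (2 * u ^ (2 / 3 : ℝ)) := by gcongr
        _ = (R * (C * c)) * (2 * (L / 100)) := by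
            field_simp
        _ ≤ (c₀ / 2) * (2 * (L / 100)) := by gcongr
        _ ≤ c₀ * L := by nlinarith)
  have hn0 : 0 ≤ n := by
    have : (0 : ℝ) < n := by linarith
    exact_mod_cast this.le
  obtain ⟨n', rfl⟩ := Int.eq_ofNat_of_zero_le hn0
  have hnY : Y < (n' : ℝ) := by exact_mod_cast n1
  refine ⟨n', hnY, by exact_mod_cast n2, fun r hr1 hrR m hm => ?_⟩
  set Z := max (L / 10) (Real.exp (L ^ (1 / 20 : ℝ))) with hZ
  have hZ1 : 1 ≤ Z := le_trans (by linarith) (le_max_left _ _)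
  have hmX : X / 2 < m := by
    have h1 := hm.trans (hwinL r hr1 hrR)
    rw [abs_le] at h1
    linarith
  -- it is enough to find `r` primes
  suffices hsuff : ∃ U : Finset ℕ, r ≤ U.card ∧ ∀ p ∈ U, p.Prime ∧ p ∣ m ∧ (p : ℝ) ≤ Z by
    obtain ⟨U, hU1, hU2⟩ := hsuff
    obtain ⟨V, hVU, hVc⟩ := Finset.exists_subset_card_eq hU1
    have hprod : ((∏ p ∈ V, p : ℕ) : ℝ) < m := by
      push_cast
      have h1 : ∏ p ∈ V, (p : ℝ) ≤ Z ^ r := by
        rw [← hVc, ← prod_const]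
        exact prod_le_prod (fun p _ => Nat.cast_nonneg p) (fun p hp => (hU2 p (hVU hp)).2.2)
      have h2 : Z ^ r ≤ Z ^ R := pow_le_pow_right₀ hZ1 hrR
      linarith
    have := omega_ge m V (fun p hp => (hU2 p (hVU hp)).1) (fun p hp => (hU2 p (hVU hp)).2.1)
      (by exact_mod_cast hprod)
    rwa [hVc] at this
  set k : ℤ := (m : ℤ) - n' with hk
  have hkI : k ∈ Finset.Icc (-⌊c * HH r X'⌋) ⌊c * HH r X'⌋ := by
    rw [hIcc, hk]
    push_cast
    exact hm
  have hbig : ∀ p : ℕ, (p : ℤ) ∣ (n' : ℤ) + k → p ∣ m := by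
    intro p h
    have h2 : (n' : ℤ) + k = m := by rw [hk]; ring
    rw [h2] at h
    exact_mod_cast h
  set T := (Pz ⌊L / 10⌋₊).filter (fun p : ℕ => (p : ℤ) ∣ k - b' p) with hT
  have hTm : ∀ p ∈ T, p.Prime ∧ p ∣ m ∧ (p : ℝ) ≤ L / 10 := by
    intro p hp
    rw [hT, mem_filter, mem_Pz, Nat.le_floor_iff (by positivity)] at hp
    obtain ⟨⟨h1, h2⟩, h3⟩ := hp
    refine ⟨h1, ?_, h2⟩
    have h4 := dvd_add h3 (n3 p h1 h2)
    have h5 : k - b' p + ((n' : ℤ) + b' p) = m := by rw [hk]; ring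
    rw [h5] at h4
    exact_mod_cast h4
  have hsubP : Pz ⌊L / 1000⌋₊ ⊆ Pz ⌊L / 10⌋₊ := by
    intro p hp
    rw [mem_Pz] at hp ⊢
    refine ⟨hp.1, hp.2.trans ?_⟩
    apply Nat.floor_le_floor
    linarith
  have hTh : hits (Pz ⌊L / 1000⌋₊) b k ≤ T.card := by
    unfold TH415.AP.hits
    apply card_le_card
    intro p hp
    rw [mem_filter] at hp
    rw [hT, mem_filter]
    refine ⟨hsubP hp.1, ?_⟩
    rw [hb1 p (by
      rw [hW, Finset.mem_sdiff]
      exact fun h => h.2 hp.1)]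
    exact hp.2
  have hL3 : L / 10 < L ^ 3 := by
    have : L < L ^ 3 := lt_self_pow₀ (by linarith) (by norm_num)
    linarith
  have hTZ : ∀ p ∈ T, p.Prime ∧ p ∣ m ∧ (p : ℝ) ≤ Z := fun p hp =>
    ⟨(hTm p hp).1, (hTm p hp).2.1, (hTm p hp).2.2.trans (le_max_left _ _)⟩
  have hnot : ∀ p : ℕ, L ^ 3 < p → p ∉ T := by
    intro p hp h
    have := (hTm p h).2.2
    linarith
  have hmemS : ∀ r', 1 ≤ r' → r' ≤ R → r = r' → hits (Pz ⌊L / 1000⌋₊) b k ≤ r' - 1 → k ∈ S := by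
    rintro r' h1 h2 rfl h3
    rw [hS, mem_biUnion]
    refine ⟨r, mem_Icc.2 ⟨h1, h2⟩, ?_⟩
    rw [hSS, mem_filter]
    exact ⟨hkI, by omega⟩
  rcases Nat.lt_or_ge (hits (Pz ⌊L / 1000⌋₊) b k) r with hlt | hge
  swap
  · exact ⟨T, hge.trans hTh, hTZ⟩
  rcases (show hits (Pz ⌊L / 1000⌋₊) b k = r - 1 ∨
    (2 ≤ r ∧ hits (Pz ⌊L / 1000⌋₊) b k = r - 2) ∨
    (3 ≤ r ∧ hits (Pz ⌊L / 1000⌋₊) b k ≤ r - 3) by omega) with h | h | h
  · -- one further prime
    have hkS : k ∈ S := hmemS r hr1 hrR rfl h.le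
    obtain ⟨p, hp, hp1, hp2, hp3⟩ := n4 k hkS
    refine ⟨insert p T, ?_, ?_⟩
    · rw [card_insert_of_notMem (hnot p hp1)]
      omega
    · intro q hq
      rcases mem_insert.1 hq with rfl | hq
      · exact ⟨hp, hbig q hp3, hp2.trans (le_max_right _ _)⟩
      · exact hTZ q hq
  · -- two further primes
    have hkD : k ∈ D := by
      rw [hD, mem_biUnion]
      refine ⟨r, mem_Icc.2 ⟨h.1, hrR⟩, ?_⟩
      rw [hSS, mem_filter]
      exact ⟨hkI, by omega⟩
    obtain ⟨p, q, hp, hq, hpq, hp1, hq1, hp2, hq2, hp3, hq3⟩ := n5 k hkD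
    refine ⟨insert p (insert q T), ?_, ?_⟩
    · have h1 : p ∉ insert q T := by
        rw [mem_insert, not_or]
        exact ⟨hpq, hnot p hp1⟩
      rw [card_insert_of_notMem h1, card_insert_of_notMem (hnot q hq1)]
      omega
    · intro s hs
      rcases mem_insert.1 hs with rfl | hs
      · exact ⟨hp, hbig s hp3, hp2.trans (le_max_right _ _)⟩
      · rcases mem_insert.1 hs with rfl | hs
        · exact ⟨hq, hbig s hq3, hq2.trans (le_max_right _ _)⟩
        · exact hTZ s hs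
  · -- direct hits
    have hkE : k ∈ E := by
      rw [hE, mem_biUnion]
      refine ⟨r, mem_Icc.2 ⟨h.1, hrR⟩, ?_⟩
      rw [hSS, mem_filter]
      exact ⟨hkI, by omega⟩
    refine ⟨T, ?_, hTZ⟩
    refine hrR.trans ((hb2 k hkE).trans ?_)
    apply card_le_card
    intro p hp
    rw [mem_filter, hW, Finset.mem_sdiff] at hp
    rw [hT, mem_filter]
    exact ⟨hp.1.1, hp.2⟩

end Pool.Agent.K6.H27.PR
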