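import Pool.Agent.TH415.AP.WS

set_option autoImplicit false

/-! # Random classes for a family of sets of points and numbers of hits -/

namespace Pool.Agent.K6.H27.PR

open Finset TH415.AP

open scoped Classical

/-- one choice of the classes for finitely many sets of points; few points have few hits -/
theorem family {ι : Type*} (I : Finset ι) (A : ι → Finset ℤ) (j : ι → ℕ)
    (S : Finset ℕ) (hS : ∀ p ∈ S, p.Prime) (t : ℝ) (ht : 0 < t) (ht1 : t ≤ 1) :
    ∃ b : ℕ → ℤ, ∀ i ∈ I,
      (((A i).filter (fun k => hits S b k ≤ j i)).card : ℝ) * t ^ (j i) ≤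
        I.card * (A i).card * ∏ p ∈ S, (1 - (1 - t) / (p : ℝ)) := by
  set Vt := ∏ p ∈ S, (1 - (1 - t) / (p : ℝ)) with hVt
  have hVt0 : 0 ≤ Vt := prod_nonneg fun p hp => by
    have h0 : (0 : ℝ) < p := by exact_mod_cast (hS p hp).pos
    have h1 : (1 : ℝ) ≤ p := by exact_mod_cast (hS p hp).one_le
    rw [sub_nonneg, div_le_one h0]
    linarith
  obtain ⟨b, hb⟩ := wsieve (I.sigma A) (fun x => x.2) (fun _ => t) (fun _ _ => ht.le) S hS
    (fun x => 1 / ((A x.1).card : ℝ)) (fun _ _ => by positivity)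
  refine ⟨b, fun i hi => ?_⟩
  rw [sum_sigma, sum_sigma] at hb
  simp only at hb
  have h1 : ∑ a ∈ I, ∑ _k ∈ A a, 1 / ((A a).card : ℝ) * Vt ≤ I.card * Vt := by
    calc ∑ a ∈ I, ∑ _k ∈ A a, 1 / ((A a).card : ℝ) * Vt ≤ ∑ _a ∈ I, Vt := by
          apply sum_le_sum
          intro a _
          rw [sum_const, nsmul_eq_mul]
          by_cases h : ((A a).card : ℝ) = 0
          · rw [h]; simpa using hVt0
          · rw [← mul_assoc, mul_one_div_cancel h, one_mul]
      _ = I.card * Vt := by rw [sum_const, nsmul_eq_mul]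
  have h2 : ∑ k ∈ A i, 1 / ((A i).card : ℝ) * t ^ (hits S b k) ≤ I.card * Vt := by
    refine le_trans ?_ (hb.trans h1)
    exact single_le_sum (f := fun a => ∑ k ∈ A a, 1 / ((A a).card : ℝ) * t ^ (hits S b k))
      (fun a _ => sum_nonneg fun k _ => by positivity) hi
  have h3 : ∑ k ∈ A i, t ^ (hits S b k) ≤ I.card * (A i).card * Vt := by
    by_cases h : (A i).card = 0
    · rw [card_eq_zero] at h
      rw [h]
      simp
    · have h0 : (0 : ℝ) < (A i).card := by exact_mod_cast Nat.pos_of_ne_zero h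
      rw [← mul_sum, one_div, inv_mul_le_iff₀ h0] at h2
      calc _ ≤ ((A i).card : ℝ) * (I.card * Vt) := h2
        _ = _ := by ring
  refine le_trans ?_ h3
  calc (((A i).filter (fun k => hits S b k ≤ j i)).card : ℝ) * t ^ (j i)
      = ∑ k ∈ (A i).filter (fun k => hits S b k ≤ j i), t ^ (j i) := by
        rw [sum_const, nsmul_eq_mul]
    _ ≤ ∑ k ∈ (A i).filter (fun k => hits S b k ≤ j i), t ^ (hits S b k) := by
        apply sum_le_sum
        intro k hk
        exact pow_le_pow_of_le_one ht.le ht1 (mem_filter.1 hk).2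
    _ ≤ _ := by
        apply sum_le_sum_of_subset_of_nonneg (filter_subset _ _)
        intro k _ _
        positivity

end Pool.Agent.K6.H27.PR
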