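import Pool.Agent.K6.H27.PR.Family
import Pool.Agent.K6.H27.PR.One2
import Pool.Agent.TH415.AP.Pre

set_option autoImplicit false
set_option maxHeartbeats 4000000

/-! # The choice of the classes modulo the small primes: few integers of short intervals have few hits -/

namespace Pool.Agent.K6.H27.PR

open Finset Filter Pool.Agent.H318R2.Cr Pool.Agent.H361R2.PA TH415.AP

open scoped Classical

/-- the number of the integers `|k| ≤ G` that lie in at most `j` of the classes `b p` modulo the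
primes `p ≤ log X / 10` -/
noncomputable def cnt (X : ℝ) (b : ℕ → ℤ) (G : ℝ) (j : ℕ) : ℝ :=
  (((Icc (-⌊G⌋) ⌊G⌋).filter (fun k : ℤ => hits (Pz ⌊Real.log X / 10⌋₊) b k ≤ j)).card : ℝ)

theorem split_hits (y : ℝ) (hy : 0 < y) (b : ℕ → ℤ) (N j : ℕ) (k : ℤ)
    (hw : WW y ≤ Real.log y) (hk : k ∈ Icc (-(N : ℤ)) (N : ℤ))
    (hj : hits (Pz ⌊y⌋₊) (fun p => if Real.log p ≤ WW y then b p else 0) k ≤ j) :
    (k ∈ P0 y (N : ℤ) ∧ hits (Pz ⌊Real.exp (WW y)⌋₊) b k ≤ j) ∨
    (1 ≤ j ∧ k ∈ P1 y (N : ℤ) ∧ hits (Pz ⌊Real.exp (WW y)⌋₊) b k ≤ j - 1) ∨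
    (2 ≤ j ∧ hits (Pz ⌊Real.exp (WW y)⌋₊) b k ≤ j - 2) := by
  set w := WW y with hwdef
  set b' : ℕ → ℤ := fun p => if Real.log p ≤ w then b p else 0 with hb'
  set U := (Pz ⌊Real.exp w⌋₊).filter (fun p : ℕ => (p : ℤ) ∣ k - b p) with hU
  set M := (Pz ⌊y⌋₊).filter (fun p : ℕ => w < Real.log p ∧ (p : ℤ) ∣ k) with hM
  have hyf : ∀ p : ℕ, p ≤ ⌊y⌋₊ ↔ (p : ℝ) ≤ y := fun p => Nat.le_floor_iff hy.le
  have hef : ∀ p : ℕ, p ≤ ⌊Real.exp w⌋₊ ↔ (p : ℝ) ≤ Real.exp w :=
    fun p => Nat.le_floor_iff (Real.exp_pos _).le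
  have hlog : ∀ p : ℕ, p.Prime → ((p : ℝ) ≤ Real.exp w ↔ Real.log p ≤ w) := by
    intro p hp
    have hp0 : (0 : ℝ) < p := by exact_mod_cast hp.pos
    rw [Real.log_le_iff_le_exp hp0]
  have hdisj : Disjoint U M := by
    rw [Finset.disjoint_left]
    intro p hp hp'
    rw [hU, mem_filter, mem_Pz, hef] at hp
    rw [hM, mem_filter] at hp'
    have := (hlog p hp.1.1).1 hp.1.2
    linarith [hp'.2.1]
  have hsub : U ∪ M ⊆ (Pz ⌊y⌋₊).filter (fun p : ℕ => (p : ℤ) ∣ k - b' p) := by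
    intro p hp
    rw [mem_union] at hp
    rw [mem_filter]
    rcases hp with hp | hp
    · rw [hU, mem_filter, mem_Pz, hef] at hp
      obtain ⟨⟨hpp, hpe⟩, hpk⟩ := hp
      have h1 : Real.log p ≤ w := (hlog p hpp).1 hpe
      refine ⟨?_, ?_⟩
      · rw [mem_Pz, hyf]
        refine ⟨hpp, hpe.trans ?_⟩
        calc Real.exp w ≤ Real.exp (Real.log y) := Real.exp_le_exp.2 hw
          _ = y := Real.exp_log hy
      · rw [hb']
        simp only [h1, if_true]
        exact hpk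
    · rw [hM, mem_filter] at hp
      refine ⟨hp.1, ?_⟩
      rw [hb']
      simp only [not_le.2 hp.2.1, if_false, sub_zero]
      exact hp.2.2
  have hcard : U.card + M.card ≤ j := by
    rw [← card_union_of_disjoint hdisj]
    exact (card_le_card hsub).trans hj
  have hUh : hits (Pz ⌊Real.exp w⌋₊) b k = U.card := rfl
  rw [hUh]
  rcases Nat.lt_or_ge M.card 1 with h0 | h1
  · left
    have hM0 : M = ∅ := by
      rw [← card_eq_zero]; omega
    refine ⟨?_, by omega⟩
    rw [P0, mem_filter]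
    refine ⟨hk, fun p hp hpy hpw hpk => ?_⟩
    have : p ∈ M := by
      rw [hM, mem_filter, mem_Pz, hyf]
      exact ⟨⟨hp, hpy⟩, hpw, hpk⟩
    rw [hM0] at this
    exact absurd this (notMem_empty p)
  · rcases Nat.lt_or_ge M.card 2 with h2 | h2
    · right; left
      have hM1 : M.card = 1 := by omega
      obtain ⟨q, hq⟩ := card_eq_one.1 hM1
      refine ⟨by omega, ?_, by omega⟩
      rw [P1, mem_filter]
      refine ⟨hk, q, fun p hp hpy hpw hpk => ?_⟩
      have : p ∈ M := by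
        rw [hM, mem_filter, mem_Pz, hyf]
        exact ⟨⟨hp, hpy⟩, hpw, hpk⟩
      rw [hq, mem_singleton] at this
      exact this
    · right; right
      exact ⟨by omega, by omega⟩


/-- the numerical facts -/
theorem facts2 (A : ℕ) (K K₂ : ℝ) : ∃ X₀ : ℝ, ∀ X : ℝ, X₀ ≤ X →
    K₂ ≤ Real.log (Real.log (Real.log X)) ∧
    K * Real.log (Real.log (Real.log X)) ^ (A + 4) ≤ Real.log (Real.log X) ∧
    Real.log (Real.log (Real.log X)) ^ A ≤ WW (Real.log X / 10) ∧
    Real.log (Real.log (Real.log X)) ^ A ≤ Real.log (Real.log (Real.log X / 10)) ^ (A + 1) ∧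
    2 * Real.log (Real.log (Real.log X)) ^ A ≤ Real.log X := by
  obtain ⟨y₀, hy₀⟩ := ev_ll (A + 1)
  obtain ⟨c₂, hc₂, X₁, h₁⟩ := facts |y₀|
  have hlo : ∀ (n : ℕ) (K : ℝ), ∀ᶠ s : ℝ in atTop, K * Real.log s ^ n ≤ s := by
    intro n K
    have a1 : (fun x : ℝ => Real.log x ^ n) =o[atTop] (id : ℝ → ℝ) :=
      Real.isLittleO_pow_log_id_atTop
    have a2 := a1.bound (show (0 : ℝ) < 1 / (|K| + 1) by positivity)
    filter_upwards [a2, eventually_ge_atTop (1 : ℝ)] with s hs hs1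
    have hl : 0 ≤ Real.log s := Real.log_nonneg hs1
    rw [id, Real.norm_of_nonneg (by positivity), Real.norm_of_nonneg (by linarith),
      one_div_mul_eq_div, le_div_iff₀ (by positivity)] at hs
    have h3 : K ≤ |K| + 1 := (le_abs_self K).trans (by linarith)
    calc K * Real.log s ^ n ≤ (|K| + 1) * Real.log s ^ n := by gcongr
      _ = Real.log s ^ n * (|K| + 1) := by ring
      _ ≤ _ := hs
  have h3 : ∀ᶠ s : ℝ in atTop, K * Real.log s ^ (A + 4) ≤ s ∧ 2 * Real.log s ^ A ≤ s ∧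
      (2 : ℝ) ^ (A + 2) ≤ Real.log s ∧ K₂ ≤ Real.log s := by
    filter_upwards [hlo (A + 4) K, hlo A 2,
      Real.tendsto_log_atTop.eventually_ge_atTop ((2 : ℝ) ^ (A + 2)),
      Real.tendsto_log_atTop.eventually_ge_atTop K₂] with s h1 h2 h3 h4
    exact ⟨h1, h2, h3, h4⟩
  have h4 := (Real.tendsto_log_atTop.comp Real.tendsto_log_atTop).eventually h3
  obtain ⟨X₂, hX₂⟩ := eventually_atTop.1 h4
  refine ⟨max X₁ X₂, fun X hX => ?_⟩
  obtain ⟨hX0, g1, g2, g3, g4, g5, g6, g7, g8, g9, g10, g11, g12, g13, g14⟩ :=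
    h₁ X ((le_max_left _ _).trans hX)
  obtain ⟨e1, e2, hu₃big, e4⟩ := hX₂ X ((le_max_right _ _).trans hX)
  simp only [Function.comp] at e1 e2 hu₃big e4
  set L1 := Real.log X with hL1
  set u₂ := Real.log L1 with hu₂
  set u₃ := Real.log u₂ with hu₃
  set y := L1 / 10 with hy
  have hp : (0 : ℝ) < 2 ^ (A + 2) := by positivity
  have hya : y₀ ≤ y := (le_abs_self y₀).trans g7
  obtain ⟨k1, k2⟩ := hy₀ y hya
  have hu₃0 : 0 < u₃ := by linarith
  have hu₂0 : 0 < u₂ := by linarith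
  -- lower bound for `log log y`
  have hll : u₃ - Real.log 2 ≤ Real.log (Real.log y) := by
    have h1 := Real.log_le_log (by linarith) g11
    rwa [Real.log_div hu₂0.ne' (by norm_num)] at h1
  have hl2 : Real.log 2 < 1 := by have := Real.log_two_lt_d9; linarith
  have hwll : Real.log (Real.log y) ^ (A + 1) ≤ WW y := k1
  have h7 : (1 : ℝ) ≤ 2 ^ (A + 1) := one_le_pow₀ (by norm_num)
  have h6 : (2 : ℝ) ^ (A + 2) = 2 * 2 ^ (A + 1) := by ring
  have hllbig : (2 : ℝ) ^ (A + 1) ≤ Real.log (Real.log y) := by linarith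
  have hcmp : u₃ ≤ 2 * Real.log (Real.log y) := by linarith
  have hmain : u₃ ^ A ≤ Real.log (Real.log y) ^ (A + 1) := by
    have h8 : 0 ≤ Real.log (Real.log y) := by linarith
    have h9 : (2 : ℝ) ^ A ≤ 2 ^ (A + 1) := pow_le_pow_right₀ (by norm_num) (Nat.le_succ A)
    calc u₃ ^ A ≤ (2 * Real.log (Real.log y)) ^ A := pow_le_pow_left₀ hu₃0.le hcmp A
      _ = 2 ^ A * Real.log (Real.log y) ^ A := by rw [mul_pow]
      _ ≤ Real.log (Real.log y) * Real.log (Real.log y) ^ A := by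
          gcongr
          linarith
      _ = _ := by ring
  refine ⟨e4, e1, hmain.trans hwll, hmain, e2.trans ?_⟩
  have := Real.log_le_sub_one_of_pos (show 0 < L1 by linarith)
  linarith

/-- **The presieve.** One choice of the classes modulo the primes up to `log X / 10` for finitely many
intervals: the number of the integers `|k| ≤ G i` in at most `j i` of the classes has the expected
order of magnitude. -/
theorem pre (R A : ℕ) : ∃ C : ℝ, 0 < C ∧ ∃ X₀ : ℝ, ∀ X : ℝ, X₀ ≤ X →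
    ∀ (G : ℕ → ℝ) (j : ℕ → ℕ), (∀ i < R, j i ≤ R) →
    (∀ i < R, Real.log X ≤ G i * Real.log (Real.log (Real.log X)) ^ A) →
    (∀ i < R, j i = 0 → Real.log X ≤ G i) →
    (∀ i < R, G i ≤ Real.log X * Real.log (Real.log X) ^ 2) →
    ∃ b : ℕ → ℤ, ∀ i < R, cnt X b (G i) (j i) ≤ C * (G i * (if j i = 0 then
      Real.log (Real.log (Real.log X)) ^ 2 /
        (Real.log (Real.log X) ^ 2 * Real.log (Real.log (Real.log (Real.log X))))
      else Real.log (Real.log (Real.log X)) ^ (j i - 1) / Real.log (Real.log X))) := by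
  obtain ⟨ya, hna⟩ := card_none' (A + 1)
  obtain ⟨yb, hnb⟩ := card_none' 0
  obtain ⟨C₁, hC₁, yc, hone⟩ := card_one' (A + 1)
  obtain ⟨d₁, d₂, hd₁, hd₁₂, hVd⟩ := cz_bounds
  have hd₂ : 0 < d₂ := hd₁.trans_le hd₁₂
  obtain ⟨c₂, hc₂, X₂, hfacts⟩ := facts (|ya| + |yb| + |yc| + |Real.log d₁| + 10)
  set KK : ℝ := (3 * R + 1 : ℝ) * 1000 * Real.exp 4 * c₂ with hKK
  obtain ⟨X₃, hf2⟩ := facts2 A KK |Real.log d₁|
  have hexp4 : 1 ≤ Real.exp 4 := Real.one_le_exp (by norm_num)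
  refine ⟨KK + 1 + (3 * R + 1) * (4 * C₁ + 1) * (2 * d₂) * Real.exp 4, by positivity,
    max X₂ X₃, ?_⟩
  intro X hX G j hjR hG1 hG0 hG2
  obtain ⟨hX0, g1, g2, g3, g4, g5, g6, g7, g8, g9, g10, g11, g12, g13, g14⟩ :=
    hfacts X ((le_max_left _ _).trans hX)
  obtain ⟨f0, f1, f2, f3, f4⟩ := hf2 X ((le_max_right _ _).trans hX)
  set L1 := Real.log X with hL1
  set u₂ := Real.log L1 with hu₂
  set u₃ := Real.log u₂ with hu₃
  set u₄ := Real.log u₃ with hu₄
  set y := L1 / 10 with hy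
  have ha := abs_nonneg ya
  have hb := abs_nonneg yb
  have hc := abs_nonneg yc
  have hd := abs_nonneg (Real.log d₁)
  have hL10 : 0 < L1 := by linarith
  have hy0 : 0 < y := by rw [hy]; linarith
  have hu₄0 : 0 < u₄ := by linarith
  have hu₃0 : 0 < u₃ := by linarith
  have hu₂0 : 0 < u₂ := by linarith
  have hu₃1 : 1 ≤ u₃ := by linarith
  have hu₂1 : 1 ≤ u₂ := by linarith
  have hya : ya ≤ y := (le_abs_self ya).trans (by linarith)
  have hyb : yb ≤ y := (le_abs_self yb).trans (by linarith)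
  have hyc : yc ≤ y := (le_abs_self yc).trans (by linarith)
  have hlyu : 0 < Real.log y := by linarith
  have hL10y : L1 = 10 * y := by rw [hy]; ring
  have hyup : L1 * u₂ ^ 2 ≤ y * (Real.log y) ^ 4 := by
    have h1 : (u₂ / 2) ^ 4 ≤ (Real.log y) ^ 4 := by gcongr
    have h2 : 10 * u₂ ^ 2 ≤ (u₂ / 2) ^ 4 := by
      have e1 : 0 ≤ u₂ ^ 2 := by positivity
      have e : (u₂ / 2) ^ 4 = u₂ ^ 2 * u₂ ^ 2 / 16 := by ring
      have e0 : 160 ≤ u₂ ^ 2 := by
        calc (160 : ℝ) ≤ 160 ^ 2 := by norm_num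
          _ ≤ u₂ ^ 2 := by gcongr
      rw [e, le_div_iff₀ (by norm_num)]
      calc 10 * u₂ ^ 2 * 16 = 160 * u₂ ^ 2 := by ring
        _ ≤ u₂ ^ 2 * u₂ ^ 2 := mul_le_mul_of_nonneg_right e0 e1
    calc L1 * u₂ ^ 2 = y * (10 * u₂ ^ 2) := by rw [hL10y]; ring
      _ ≤ y * (Real.log y) ^ 4 := by gcongr; linarith
  set w := WW y with hw
  set v : ℕ := ⌊Real.exp w⌋₊ with hv
  set V' := V v with hV'
  have hV'0 : 0 < V' := V_pos v
  have hV'1 : V' ≤ 1 := V_le_one v
  have hw10 : 10 ≤ w := by linarith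
  have hvle : (v : ℝ) ≤ Real.exp w := Nat.floor_le (Real.exp_pos _).le
  have hvlt : Real.exp w < v + 1 := Nat.lt_floor_add_one _
  have hexpw : 11 ≤ Real.exp w := by
    have := Real.add_one_le_exp w
    linarith
  have hv2 : 2 ≤ v := by
    have h1 : (1 : ℝ) < v := by linarith
    exact_mod_cast h1
  have hv0 : (0 : ℝ) < v := by exact_mod_cast (by omega : 0 < v)
  have hlogv : w / 2 ≤ Real.log v := by
    have e1 : Real.exp w ≤ 2 * v := by linarith
    have e2 := Real.log_le_log (Real.exp_pos _) e1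
    rw [Real.log_exp, Real.log_mul (by norm_num) hv0.ne'] at e2
    have := Real.log_two_lt_d9
    linarith
  have hlogv' : Real.log v ≤ u₂ := by
    have h1 : Real.log v ≤ w := by
      rw [← Real.log_exp w]; exact Real.log_le_log hv0 hvle
    have h2 : Real.log y ≤ u₂ := by
      apply Real.log_le_log hy0
      rw [hy]; linarith
    linarith
  have hlv0 : 0 < Real.log v := by linarith
  have hVw : V' * w ≤ 2 * d₂ := by
    have h1 := (hVd v hv2).2
    have h2 : V' * (w / 2) ≤ V' * Real.log v := by gcongr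
    linarith
  have hVlow : d₁ / u₂ ≤ V' := by
    have h1 := (hVd v hv2).1
    rw [div_le_iff₀ hu₂0]
    calc d₁ ≤ V' * Real.log v := h1
      _ ≤ V' * u₂ := by gcongr
  have hlogV : -Real.log V' ≤ 2 * u₃ := by
    have h1 := Real.log_le_log (by positivity) hVlow
    rw [Real.log_div hd₁.ne' hu₂0.ne'] at h1
    have h2 := neg_abs_le (Real.log d₁)
    linarith
  have hVup : V' ≤ c₂ * u₃ / (u₂ * u₄) := g14
  have hVup2 : V' ≤ c₂ * u₃ / u₂ := by
    refine hVup.trans ?_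
    apply div_le_div_of_nonneg_left (by positivity) hu₂0
    calc u₂ = u₂ * 1 := (mul_one _).symm
      _ ≤ u₂ * u₄ := by gcongr; linarith
  -- parameters
  set t : ℝ := 1 / u₃ with ht
  have ht0 : 0 < t := by positivity
  have ht1 : t ≤ 1 := by rw [ht, div_le_one hu₃0]; exact hu₃1
  have hSpr : ∀ p ∈ Pz v, p.Prime := fun p hp => (mem_Pz.1 hp).1
  have hVtle : ∏ p ∈ Pz v, (1 - (1 - t) / (p : ℝ)) ≤ V' * Real.exp 4 := by
    have h1 := prod_t (Pz v) hSpr t ht0.le
    have h2 : ∏ p ∈ Pz v, (1 - 1 / (p : ℝ)) = V' := rfl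
    rw [h2] at h1
    refine h1.trans ?_
    have h3 : 2 * t * (-Real.log V') ≤ 4 := by
      calc 2 * t * (-Real.log V') ≤ 2 * t * (2 * u₃) := by gcongr
        _ = 4 := by rw [ht]; field_simp; norm_num
    gcongr
  set N : ℕ → ℕ := fun i => ⌊G i⌋₊ with hN
  set I : Finset (ℕ × ℕ) := ((range R) ×ˢ (range 3)).filter (fun x => x.2 ≤ j x.1) with hI
  set AA : ℕ × ℕ → Finset ℤ := fun x => if x.2 = 0 then P0 y (N x.1 : ℤ) else
    if x.2 = 1 then P1 y (N x.1 : ℤ) else Icc (-(N x.1 : ℤ)) (N x.1 : ℤ) with hAA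
  obtain ⟨b, hbf⟩ := family I AA (fun x => j x.1 - x.2) (Pz v) hSpr t ht0 ht1
  have hIc : (I.card : ℝ) ≤ 3 * R + 1 := by
    have h1 : I.card ≤ R * 3 := by
      refine (card_filter_le _ _).trans ?_
      rw [card_product, card_range, card_range]
    have h2 : (I.card : ℝ) ≤ R * 3 := by exact_mod_cast h1
    linarith
  have key : ∀ i < R, ∀ e, e < 3 → e ≤ j i →
      (((AA (i, e)).filter (fun k => hits (Pz v) b k ≤ j i - e)).card : ℝ) ≤
        (3 * R + 1) * (AA (i, e)).card * (V' * Real.exp 4) * u₃ ^ (j i - e) := by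
    intro i hi e he hej
    have h1 := hbf (i, e) (by
      rw [hI, mem_filter, mem_product, mem_range, mem_range]
      exact ⟨⟨hi, he⟩, hej⟩)
    simp only at h1
    have h2 : t ^ (j i - e) * u₃ ^ (j i - e) = 1 := by
      rw [← mul_pow, ht, one_div_mul_cancel hu₃0.ne', one_pow]
    have h3 : 0 ≤ u₃ ^ (j i - e) := by positivity
    have h4 := mul_le_mul_of_nonneg_right h1 h3
    rw [mul_assoc, h2, mul_one] at h4
    refine h4.trans ?_
    apply mul_le_mul_of_nonneg_right _ h3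
    have h5 : 0 ≤ ((AA (i, e)).card : ℝ) := Nat.cast_nonneg _
    have h6 : 0 ≤ (I.card : ℝ) * (AA (i, e)).card := mul_nonneg (Nat.cast_nonneg _) h5
    have h7 : 0 ≤ V' * Real.exp 4 := mul_nonneg hV'0.le (Real.exp_pos 4).le
    exact (mul_le_mul_of_nonneg_left hVtle h6).trans
      (mul_le_mul_of_nonneg_right (mul_le_mul_of_nonneg_right hIc h5) h7)
  refine ⟨fun p => if Real.log p ≤ w then b p else 0, fun i hi => ?_⟩
  set g := G i with hg
  set n := N i with hn
  have hpA : 0 < u₃ ^ A := by positivity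
  have hg2 : 2 ≤ g := by
    have h1 := hG1 i hi
    have h2 : 2 * u₃ ^ A ≤ g * u₃ ^ A := f4.trans h1
    exact le_of_mul_le_mul_right h2 hpA
  have hng : (n : ℝ) ≤ g := Nat.floor_le (by linarith)
  have hgn : g < n + 1 := Nat.lt_floor_add_one _
  have hn1 : (1 : ℝ) < n := by
    have h1 : (2 : ℕ) ≤ n := by
      rw [hn, hN]
      exact Nat.le_floor (by exact_mod_cast hg2)
    have : (2 : ℝ) ≤ n := by exact_mod_cast h1
    linarith
  have hgn2 : g ≤ 2 * n := by linarith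
  have hny : (n : ℝ) ≤ y * (Real.log y) ^ 4 := (hng.trans (hG2 i hi)).trans hyup
  have hyn : y ≤ n * Real.log (Real.log y) ^ (A + 1) := by
    have h1 := hG1 i hi
    have h2 : g * u₃ ^ A ≤ 2 * n * Real.log (Real.log y) ^ (A + 1) := by gcongr
    have h3 : 0 ≤ (n : ℝ) * Real.log (Real.log y) ^ (A + 1) := by positivity
    rw [hy]
    linarith
  have hL1u₂ : u₂ ≤ L1 := by
    refine le_trans ?_ g8
    exact le_self_pow₀ hu₂1 (by norm_num)
  -- the sizes of the sets of points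
  have hc1 : ((P1 y (n : ℤ)).card : ℝ) ≤ (4 * C₁ + 1) * (g * w / u₂) := by
    have h1 := card_P1 y n
    have h2 := hone y hyc n hyn hny
    have h3 : C₁ * n * w / Real.log y ≤ C₁ * g * w / (u₂ / 2) := by
      apply div_le_div₀ (by positivity) _ (by positivity) g11
      gcongr
    have h4 : C₁ * g * w / (u₂ / 2) = 2 * C₁ * (g * w / u₂) := by
      field_simp
    have h5 : 1 ≤ g * w / u₂ := by
      rw [le_div_iff₀ hu₂0, one_mul]
      calc u₂ ≤ L1 := hL1u₂
        _ ≤ g * u₃ ^ A := hG1 i hi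
        _ ≤ g * w := by gcongr
    linarith
  have hc0 : ((P0 y (n : ℤ)).card : ℝ) ≤ 481 * (g * u₃ ^ (A + 2) / u₂) := by
    have h1 := card_P0 y n
    have h2 := hna y hya n hyn hny
    have h3 : 120 * (n : ℝ) * Real.log (Real.log y) ^ (A + 1 + 1) / Real.log y ≤
        120 * g * u₃ ^ (A + 1 + 1) / (u₂ / 2) := by
      apply div_le_div₀ (by positivity) _ (by positivity) g11
      gcongr
    have h4 : 120 * g * u₃ ^ (A + 1 + 1) / (u₂ / 2) = 240 * (g * u₃ ^ (A + 2) / u₂) := by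
      field_simp
      ring
    have h5 : 1 ≤ g * u₃ ^ (A + 2) / u₂ := by
      rw [le_div_iff₀ hu₂0, one_mul]
      calc u₂ ≤ L1 := hL1u₂
        _ ≤ g * u₃ ^ A := hG1 i hi
        _ ≤ g * u₃ ^ (A + 2) := by
            gcongr <;> first | exact hu₃1 | omega
    linarith
  have hc2 : ((Icc (-(n : ℤ)) (n : ℤ)).card : ℝ) ≤ 3 * g := by
    rw [Int.card_Icc]
    have h1 : ((n : ℤ) + 1 - -(n : ℤ)).toNat = 2 * n + 1 := by omega
    rw [h1]
    push_cast
    linarith
  -- the decomposition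
  have hfl : ⌊g⌋ = (n : ℤ) := (Int.natCast_floor_eq_floor (by linarith)).symm
  set F0 := (AA (i, 0)).filter (fun k => hits (Pz v) b k ≤ j i - 0) with hF0
  set F1 := if 1 ≤ j i then (AA (i, 1)).filter (fun k => hits (Pz v) b k ≤ j i - 1) else ∅ with hF1
  set F2 := if 2 ≤ j i then (AA (i, 2)).filter (fun k => hits (Pz v) b k ≤ j i - 2) else ∅ with hF2
  have hA0 : AA (i, 0) = P0 y (n : ℤ) := if_pos rfl
  have hA1 : AA (i, 1) = P1 y (n : ℤ) := (if_neg one_ne_zero).trans (if_pos rfl)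
  have hA2 : AA (i, 2) = Icc (-(n : ℤ)) (n : ℤ) :=
    (if_neg two_ne_zero).trans (if_neg (by norm_num))
  have hcnt : cnt X (fun p => if Real.log p ≤ w then b p else 0) g (j i) ≤
      F0.card + (F1.card + F2.card) := by
    unfold cnt
    rw [← hL1, ← hy, hfl]
    have hsub : (Icc (-(n : ℤ)) (n : ℤ)).filter (fun k : ℤ =>
        hits (Pz ⌊y⌋₊) (fun p => if Real.log p ≤ w then b p else 0) k ≤ j i) ⊆
        F0 ∪ (F1 ∪ F2) := by
      intro k hk
      rw [mem_filter] at hk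
      rw [mem_union, mem_union]
      rcases split_hits y hy0 b n (j i) k g10 hk.1 hk.2 with h | h | h
      · left
        rw [hF0, mem_filter, hA0]
        exact ⟨h.1, by simpa using h.2⟩
      · right; left
        rw [hF1, if_pos h.1, mem_filter, hA1]
        exact h.2
      · right; right
        rw [hF2, if_pos h.1, mem_filter, hA2]
        exact ⟨hk.1, h.2⟩
    have h1 := (card_le_card hsub).trans ((card_union_le _ _).trans
      (Nat.add_le_add_left (card_union_le _ _) _))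
    exact_mod_cast h1
  have hR0 : (0 : ℝ) ≤ R := Nat.cast_nonneg R
  have hke : 0 < V' * Real.exp 4 := by positivity
  by_cases hj0 : j i = 0
  · rw [if_pos hj0]
    have hF1e : F1 = ∅ := by rw [hF1, if_neg (by omega)]
    have hF2e : F2 = ∅ := by rw [hF2, if_neg (by omega)]
    rw [hF1e, hF2e, card_empty] at hcnt
    have h1 := key i hi 0 (by norm_num) (Nat.zero_le _)
    rw [← hF0, hA0] at h1
    have hLg := hG0 i hi hj0
    have hyn0 : y ≤ n * Real.log (Real.log y) ^ 0 := by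
      rw [pow_zero, mul_one, hy]
      linarith
    have hc0' : ((P0 y (n : ℤ)).card : ℝ) ≤ 481 * (g * u₃ / u₂) := by
      have h1 := card_P0 y n
      have h2 := hnb y hyb n hyn0 hny
      have h3 : 120 * (n : ℝ) * Real.log (Real.log y) ^ (0 + 1) / Real.log y ≤
          120 * g * u₃ ^ (0 + 1) / (u₂ / 2) := by
        apply div_le_div₀ (by positivity) _ (by positivity) g11
        gcongr
      have h4 : 120 * g * u₃ ^ (0 + 1) / (u₂ / 2) = 240 * (g * u₃ / u₂) := by
        field_simp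
        ring
      have h5 : 1 ≤ g * u₃ / u₂ := by
        rw [le_div_iff₀ hu₂0, one_mul]
        calc u₂ ≤ L1 := hL1u₂
          _ ≤ g := hLg
          _ = g * 1 := (mul_one _).symm
          _ ≤ g * u₃ := by gcongr
      linarith
    have h2 : (3 * R + 1 : ℝ) * (P0 y (n : ℤ)).card * (V' * Real.exp 4) * u₃ ^ (j i - 0) ≤
        (3 * R + 1 : ℝ) * (481 * (g * u₃ / u₂)) * (c₂ * u₃ / (u₂ * u₄) * Real.exp 4) * 1 := by
      rw [hj0, Nat.sub_zero, pow_zero]
      gcongr
    have h3 : (3 * R + 1 : ℝ) * (481 * (g * u₃ / u₂)) * (c₂ * u₃ / (u₂ * u₄) * Real.exp 4) * 1 =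
        (481 / 1000 * KK) * (g * (u₃ ^ 2 / (u₂ ^ 2 * u₄))) := by
      rw [hKK]
      field_simp
    have h4 : 0 ≤ g * (u₃ ^ 2 / (u₂ ^ 2 * u₄)) := by positivity
    have hKK0 : 0 ≤ KK := by positivity
    have h5 : 481 / 1000 * KK ≤ KK + 1 + (3 * R + 1) * (4 * C₁ + 1) * (2 * d₂) * Real.exp 4 := by
      have : 0 ≤ (3 * R + 1) * (4 * C₁ + 1) * (2 * d₂) * Real.exp 4 := by positivity
      linarith
    have h6 := mul_le_mul_of_nonneg_right h5 h4
    push_cast at hcnt
    linarith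
  · rw [if_neg hj0]
    have hj1 : 1 ≤ j i := Nat.one_le_iff_ne_zero.2 hj0
    set Z : ℝ := g * (u₃ ^ (j i - 1) / u₂) with hZ
    have hZ0 : 0 ≤ Z := by positivity
    -- F0
    have e0 : (F0.card : ℝ) ≤ Z := by
      have h1 := key i hi 0 (by norm_num) (Nat.zero_le _)
      rw [← hF0, hA0] at h1
      refine h1.trans ?_
      have h2 : (3 * R + 1 : ℝ) * (P0 y (n : ℤ)).card * (V' * Real.exp 4) * u₃ ^ (j i - 0) ≤
          (3 * R + 1 : ℝ) * (481 * (g * u₃ ^ (A + 2) / u₂)) * (c₂ * u₃ / u₂ * Real.exp 4) *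
            u₃ ^ (j i - 0) := by
        gcongr
      refine h2.trans ?_
      have h3 : (3 * R + 1 : ℝ) * (481 * (g * u₃ ^ (A + 2) / u₂)) * (c₂ * u₃ / u₂ * Real.exp 4) *
            u₃ ^ (j i - 0) = (481 / 1000 * KK * u₃ ^ (A + 4) / u₂) * Z := by
        have hjj : j i - 0 = (j i - 1) + 1 := by omega
        rw [hjj, hKK, hZ]
        field_simp
        ring
      rw [h3]
      have h4 : 481 / 1000 * KK * u₃ ^ (A + 4) / u₂ ≤ 1 := by
        rw [div_le_one hu₂0]
        have : 0 ≤ KK * u₃ ^ (A + 4) := by positivity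
        linarith
      exact (mul_le_mul_of_nonneg_right h4 hZ0).trans (by rw [one_mul])
    -- F1
    have e1 : (F1.card : ℝ) ≤ (3 * R + 1) * (4 * C₁ + 1) * (2 * d₂) * Real.exp 4 * Z := by
      rw [hF1, if_pos hj1]
      refine (key i hi 1 (by norm_num) hj1).trans ?_
      rw [hA1]
      have h2 : (3 * R + 1 : ℝ) * (P1 y (n : ℤ)).card * (V' * Real.exp 4) * u₃ ^ (j i - 1) ≤
          (3 * R + 1 : ℝ) * ((4 * C₁ + 1) * (g * w / u₂)) * (V' * Real.exp 4) *
            u₃ ^ (j i - 1) := by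
        gcongr
      refine h2.trans ?_
      have h3 : (3 * R + 1 : ℝ) * ((4 * C₁ + 1) * (g * w / u₂)) * (V' * Real.exp 4) *
            u₃ ^ (j i - 1) = (3 * R + 1) * (4 * C₁ + 1) * (V' * w) * Real.exp 4 * Z := by
        rw [hZ]
        ring
      rw [h3]
      gcongr
    -- F2
    have e2 : (F2.card : ℝ) ≤ 3 / 1000 * KK * Z := by
      rw [hF2]
      split_ifs with hj2
      · refine (key i hi 2 (by norm_num) hj2).trans ?_
        rw [hA2]
        have h2 : (3 * R + 1 : ℝ) * (Icc (-(n : ℤ)) (n : ℤ)).card * (V' * Real.exp 4) *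
            u₃ ^ (j i - 2) ≤ (3 * R + 1 : ℝ) * (3 * g) * (c₂ * u₃ / u₂ * Real.exp 4) *
              u₃ ^ (j i - 2) := by
          gcongr
        refine h2.trans (le_of_eq ?_)
        have hjj : j i - 1 = (j i - 2) + 1 := by omega
        rw [hZ, hjj, hKK]
        field_simp
        ring
      · rw [card_empty]
        have : 0 ≤ KK := by positivity
        push_cast
        positivity
    have hKK0 : 0 ≤ KK * Z := by positivity
    have hfin : (KK + 1 + (3 * R + 1) * (4 * C₁ + 1) * (2 * d₂) * Real.exp 4) * Z =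
        KK * Z + Z + (3 * R + 1) * (4 * C₁ + 1) * (2 * d₂) * Real.exp 4 * Z := by ring
    rw [hfin]
    linarith

end Pool.Agent.K6.H27.PR
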