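import Pool.Agent.TH877.M2.Fin2

set_option autoImplicit false
set_option maxHeartbeats 4000000

/-! # The lengths of the intervals -/

namespace Pool.Agent.K6.H27.PR

open Finset Filter Pool.Agent.H256R2.SC

/-- the lengths of the intervals (up to constants), `r ≥ 1` -/
noncomputable def HH (r : ℕ) (X : ℝ) : ℝ :=
  if r ≤ 1 then ff X else
  if r = 2 then Real.log X * Real.log (Real.log X) else
  if r = 3 then Real.log X * Real.log (Real.log X) ^ (1 / 3 : ℝ) else
  Real.log X / Real.log (Real.log (Real.log X)) ^ (r - 4)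

theorem HH_pow (θ : ℝ) (h0 : 0 < θ) (h1 : θ ≤ 1) : ∃ x₀ : ℝ, ∀ x : ℝ, x₀ ≤ x →
    1 < x ∧ ∀ r : ℕ, θ / 8 * HH r x ≤ HH r (x ^ θ) := by
  obtain ⟨X₂, hf⟩ := Pool.Agent.TH877.M2.ff_pow θ h0 h1
  obtain ⟨X₁, h₁⟩ := LG.ev_log (max 100 (-(2 * Real.log θ)))
  refine ⟨max X₁ (max X₂ 2), fun x hx => ?_⟩
  obtain ⟨-, m1, m2, m3, m4⟩ := h₁ x ((le_max_left _ _).trans hx)
  obtain ⟨a1, a2, a3⟩ := hf x (((le_max_left _ _).trans (le_max_right _ _)).trans hx)
  have M1 : (100 : ℝ) ≤ max 100 (-(2 * Real.log θ)) := le_max_left _ _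
  have M2 : -(2 * Real.log θ) ≤ max 100 (-(2 * Real.log θ)) := le_max_right _ _
  refine ⟨a1, fun r => ?_⟩
  unfold HH
  split_ifs with r1 r2 r3
  · exact a2
  · exact a3
  · have hx0 : 0 < x := by linarith
    set l1 := Real.log x with hl1
    set l2 := Real.log l1 with hl2
    have p1 : 0 < l1 := by linarith
    have p2 : 0 < l2 := by linarith
    have hlθ : Real.log θ ≤ 0 := Real.log_nonpos h0.le h1
    have e1 : Real.log (x ^ θ) = θ * l1 := Real.log_rpow hx0 θ
    have e2 : Real.log (θ * l1) = Real.log θ + l2 := Real.log_mul h0.ne' p1.ne'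
    have e2a : l2 / 2 ≤ Real.log θ + l2 := by linarith
    rw [e1, e2]
    have e3 : (l2 / 2) ^ (1 / 3 : ℝ) ≤ (Real.log θ + l2) ^ (1 / 3 : ℝ) :=
      Real.rpow_le_rpow (by positivity) e2a (by norm_num)
    have e4 : l2 ^ (1 / 3 : ℝ) / 8 ≤ (l2 / 2) ^ (1 / 3 : ℝ) := by
      rw [Real.div_rpow p2.le (by norm_num)]
      apply div_le_div_of_nonneg_left (by positivity) (by positivity)
      calc (2 : ℝ) ^ (1 / 3 : ℝ) ≤ 2 ^ (1 : ℝ) :=
            Real.rpow_le_rpow_of_exponent_le (by norm_num) (by norm_num)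
        _ ≤ 8 := by norm_num
    calc θ / 8 * (l1 * l2 ^ (1 / 3 : ℝ)) = θ * l1 * (l2 ^ (1 / 3 : ℝ) / 8) := by ring
      _ ≤ θ * l1 * (Real.log θ + l2) ^ (1 / 3 : ℝ) := by
          apply mul_le_mul_of_nonneg_left (e4.trans e3) (by positivity)
  · have hx0 : 0 < x := by linarith
    set l1 := Real.log x with hl1
    set l2 := Real.log l1 with hl2
    set l3 := Real.log l2 with hl3
    have p1 : 0 < l1 := by linarith
    have p2 : 0 < l2 := by linarith
    have p3 : 0 < l3 := by linarith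
    have hlθ : Real.log θ ≤ 0 := Real.log_nonpos h0.le h1
    have hln2 : Real.log 2 < 1 := by have := Real.log_two_lt_d9; linarith
    have e1 : Real.log (x ^ θ) = θ * l1 := Real.log_rpow hx0 θ
    have e2 : Real.log (θ * l1) = Real.log θ + l2 := Real.log_mul h0.ne' p1.ne'
    have e2a : l2 / 2 ≤ Real.log θ + l2 := by linarith
    have e2b : Real.log θ + l2 ≤ l2 := by linarith
    have e2p : 0 < Real.log θ + l2 := by linarith
    have e3b : Real.log (Real.log θ + l2) ≤ l3 := Real.log_le_log e2p e2b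
    have e3a : l3 / 2 ≤ Real.log (Real.log θ + l2) := by
      have := Real.log_le_log (by linarith) e2a
      rw [Real.log_div p2.ne' (by norm_num)] at this
      change l3 - Real.log 2 ≤ _ at this
      linarith
    have e3p : 0 < Real.log (Real.log θ + l2) := by linarith
    rw [e1, e2]
    calc θ / 8 * (l1 / l3 ^ (r - 4)) ≤ θ * (l1 / l3 ^ (r - 4)) := by
          apply mul_le_mul_of_nonneg_right (by linarith) (by positivity)
      _ = θ * l1 / l3 ^ (r - 4) := by ring
      _ ≤ θ * l1 / Real.log (Real.log θ + l2) ^ (r - 4) := by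
          apply div_le_div_of_nonneg_left (by positivity) (by positivity)
          gcongr

end Pool.Agent.K6.H27.PR
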